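import Pool.Agent.Q148.CairnsData

/-!
The abstract simplicial 2-complex `𝒞` of the problem (`Q148.Cairns.simplices`, on the vertex set
`Fin 10`) is linearly realizable in `ℝ⁴`.
-/

open Finset

namespace Q148.Cairns

/-- the ten points of `ℝ⁴` -/
noncomputable def pt : Fin 10 ↪ (Fin 4 → ℝ) where
  toFun v i := (P v i : ℝ)
  inj' := by
    intro a b h
    apply P_inj
    funext i
    have : ((P a i : ℤ) : ℝ) = ((P b i : ℤ) : ℝ) := congrFun h i
    exact_mod_cast this

theorem pt_apply (z : Fin 10) (i : Fin 4) : pt z i = (P z i : ℝ) := rfl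

theorem dot_cast (v : ℤ × ℤ × ℤ × ℤ × ℤ) (z : Fin 10) :
    ((dot v z : ℤ) : ℝ) =
      ∑ i, (![(v.1 : ℝ), (v.2.1 : ℝ), (v.2.2.1 : ℝ), (v.2.2.2.1 : ℝ)] : Fin 4 → ℝ) i * pt z i -
        (v.2.2.2.2 : ℝ) := by
  simp only [Fin.sum_univ_four, pt_apply]
  simp [dot]

theorem sep_of_ok {σ τ : Finset (Fin 10)} {v : ℤ × ℤ × ℤ × ℤ × ℤ} (h : okSep σ τ v) :
    Sep pt σ τ := by
  obtain ⟨h1, h2, h3⟩ := h
  refine ⟨![(v.1 : ℝ), (v.2.1 : ℝ), (v.2.2.1 : ℝ), (v.2.2.2.1 : ℝ)], (v.2.2.2.2 : ℝ), ?_, ?_, ?_⟩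
  · intro z hz hz'
    have : ((dot v z : ℤ) : ℝ) < 0 := by exact_mod_cast h1 z hz hz'
    rw [dot_cast] at this
    linarith
  · intro z hz hz'
    have : 0 < ((dot v z : ℤ) : ℝ) := by exact_mod_cast h2 z hz hz'
    rw [dot_cast] at this
    linarith
  · intro z hz hz'
    have : ((dot v z : ℤ) : ℝ) = 0 := by exact_mod_cast h3 z hz hz'
    rw [dot_cast] at this
    linarith

theorem indep_of_ok {σ : Finset (Fin 10)} {L : List (ℤ × ℤ × ℤ × ℤ × ℤ)} (h : okInd σ L) :
    Indep pt σ := by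
  intro d hd h1 h2 z
  by_cases hz : z ∈ σ
  · obtain ⟨v, _, hv, hv'⟩ := h z hz
    have key : ∑ y, d y * ((dot v y : ℤ) : ℝ) = 0 := by
      simp only [dot_cast, mul_sub, sum_sub_distrib]
      rw [← apply_functional, h2, ← sum_mul, h1]
      simp
    rw [sum_eq_single z] at key
    · rcases mul_eq_zero.1 key with h | h
      · exact h
      · exact absurd (by exact_mod_cast h) hv
    · intro y _ hy
      by_cases hyσ : y ∈ σ
      · rw [hv' y hyσ hy]; simp
      · rw [hd y hyσ, zero_mul]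
    · intro h; exact absurd (mem_univ z) h
  · exact hd z hz

theorem mem_zip {α β : Type} {l : List α} {k : List β} (h : l.length = k.length) {x : α}
    (hx : x ∈ l) : ∃ y, (x, y) ∈ l.zip k ∧ y ∈ k := by
  obtain ⟨i, hi, rfl⟩ := List.getElem_of_mem hx
  refine ⟨k[i]'(h ▸ hi), ?_, List.getElem_mem _⟩
  rw [List.mem_iff_getElem]
  refine ⟨i, by rw [List.length_zip, ← h, min_self]; exact hi, ?_⟩
  simp

theorem allIndep : ∀ σ ∈ maximal, Indep pt σ := by
  intro σ hσ
  obtain ⟨L, hL, _⟩ := mem_zip (k := affs) (by rw [check_len.2.2, check_len.2.1]) hσ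
  exact indep_of_ok (check_ind _ hL)

theorem allSep : ∀ σ ∈ maximal, ∀ τ ∈ maximal, σ ≠ τ → Sep pt σ τ := by
  intro σ hσ τ hτ hne
  obtain ⟨r, hr, hr'⟩ := mem_zip (k := rows) (by rw [check_len.2.2, check_len.1]) hσ
  obtain ⟨v, hv, _⟩ := mem_zip (k := r) (by rw [check_len.2.2, check_len' r hr']) hτ
  exact sep_of_ok (check_sep _ hr _ hv hne)

end Q148.Cairns

namespace Pool.Agent.Results.MP_cc703c_co.CairnsComplex

open Q148.Cairns

/-- **MP_cc703c_co, Q1.** The complex `𝒞` has a linear realization in `ℝ⁴`: there are an injection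
`p` of its vertex set into `ℝ⁴` and a geometric simplicial complex whose faces are exactly the
images of the simplices of `𝒞` (the vertex set of each face is affinely independent and any two
closed cells meet in the convex hull of their common vertices, which are part of Mathlib's
definition of a geometric simplicial complex). -/
theorem result :
    ∃ (p : Fin 10 ↪ (Fin 4 → ℝ)) (K : Geometry.SimplicialComplex ℝ (Fin 4 → ℝ)),
      K.faces = {s | ∃ t ∈ simplices, s = t.map p} :=
  ⟨pt, build pt maximal allIndep allSep, rfl⟩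

end Pool.Agent.Results.MP_cc703c_co.CairnsComplex
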